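import Pool.Agent.W757.BL.Defs
import Pool.Agent.H719R3.BG.Rt

/-!
BL-SMO: step maps are decreasing in the convex set.
-/

set_option autoImplicit false

namespace Pool.Agent.W563.BL

open Set Filter Topology Pool.Agent.W757.BL Pool.Agent.H719R3.BG
open Pool.Agent.H719R3.BG.Rt (cr_eq cr_smul_right exists_smul)

/-- A point strictly to the right of a tangent is strictly to the right of all chords from some
boundary point. -/
theorem outside {x y x' y' : ℝ → ℝ} {L : ℝ} (hC : Cv x y x' y' L) {s kx ky : ℝ}
    (hk : 0 < x' s * (y s - ky) - y' s * (x s - kx)) :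
    ∃ s0, ∀ t, s0 < t → t < s0 + L →
      (x t - x s0) * (ky - y s0) - (y t - y s0) * (kx - x s0) < 0 := by
  have hper : Function.Periodic (fun t : ℝ => (x t, y t)) L := fun t => by
    show (x (t + L), y (t + L)) = (x t, y t)
    rw [hC.px, hC.py]
  have hlam : ∀ t, 0 < x' s * (y t - ky) - y' s * (x t - kx) := by
    intro t
    obtain ⟨u, hu, he⟩ := hper.exists_mem_Ico hC.L0 t s
    have e1 : x t = x u := congrArg Prod.fst he
    have e2 : y t = y u := congrArg Prod.snd he
    rw [e1, e2]
    rcases eq_or_lt_of_le hu.1 with h | h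
    · rw [← h]; exact hk
    · have := hC.conv s u h hu.2
      nlinarith
  have hxc : Continuous x := continuous_iff_continuousAt.2 fun t => (hC.dx t).continuousAt
  have hyc : Continuous y := continuous_iff_continuousAt.2 fun t => (hC.dy t).continuousAt
  -- the minimum of the slope
  have hcont : Continuous fun t => (x' s * (x t - kx) + y' s * (y t - ky)) /
      (x' s * (y t - ky) - y' s * (x t - kx)) := by
    apply Continuous.div
    · fun_prop
    · fun_prop
    · intro t; exact (hlam t).ne'
  obtain ⟨s0, _, hmin⟩ := (isCompact_Icc (a := s) (b := s + L)).exists_isMinOn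
    (nonempty_Icc.2 (by linarith [hC.L0])) hcont.continuousOn
  have hN : 0 < x' s ^ 2 + y' s ^ 2 := by
    have h1 := hlam s
    by_contra h2
    have h3 : x' s = 0 := by nlinarith [sq_nonneg (x' s), sq_nonneg (y' s)]
    have h4 : y' s = 0 := by nlinarith [sq_nonneg (x' s), sq_nonneg (y' s)]
    rw [h3, h4] at h1
    simp at h1
  have hphi : ∀ t, (x s0 - kx) * (y t - ky) - (y s0 - ky) * (x t - kx) ≤ 0 := by
    intro t
    obtain ⟨u, hu, he⟩ := hper.exists_mem_Ico hC.L0 t s
    have e1 : x t = x u := congrArg Prod.fst he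
    have e2 : y t = y u := congrArg Prod.snd he
    rw [e1, e2]
    have h1 := hmin (Ico_subset_Icc_self hu)
    simp only [mem_ofPred_eq] at h1
    rw [div_le_div_iff₀ (hlam s0) (hlam u)] at h1
    have h2 : (x' s ^ 2 + y' s ^ 2) * ((x s0 - kx) * (y u - ky) - (y s0 - ky) * (x u - kx)) ≤ 0 := by
      nlinarith
    by_contra h3
    push Not at h3
    have := mul_pos hN h3
    linarith
  -- the tangent at `s0`
  have hmax : IsLocalMax (fun t => (x s0 - kx) * (y t - ky) - (y s0 - ky) * (x t - kx)) s0 := by
    apply Filter.Eventually.of_forall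
    intro t
    have := hphi t
    show (x s0 - kx) * (y t - ky) - (y s0 - ky) * (x t - kx) ≤
      (x s0 - kx) * (y s0 - ky) - (y s0 - ky) * (x s0 - kx)
    linarith
  have hder : HasDerivAt (fun t => (x s0 - kx) * (y t - ky) - (y s0 - ky) * (x t - kx))
      ((x s0 - kx) * y' s0 - (y s0 - ky) * x' s0) s0 := by
    exact (((hC.dy s0).sub_const ky).const_mul _).sub (((hC.dx s0).sub_const kx).const_mul _)
  have hzero := hmax.hasDerivAt_eq_zero hder
  refine ⟨s0, ?_⟩
  intro t h1 h2
  have hconv := hC.conv s0 t h1 h2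
  have hle := hphi t
  have hle' : (x s0 - kx) * (y t - y s0) - (y s0 - ky) * (x t - x s0) ≤ 0 := by linarith
  rcases lt_or_eq_of_le hle' with h | h
  · linarith
  · exfalso
    -- `v0` is parallel to the tangent and to the chord, so it vanishes
    have hA : x' s0 * (y t - y s0) - y' s0 * (x t - x s0) ≠ 0 := hconv.ne'
    have hv1 : (x s0 - kx) = 0 := by
      have : (x s0 - kx) * (x' s0 * (y t - y s0) - y' s0 * (x t - x s0)) = 0 := by
        linear_combination x' s0 * h - (x t - x s0) * hzero
      exact (mul_eq_zero.1 this).resolve_right hA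
    have hv2 : (y s0 - ky) = 0 := by
      have : (y s0 - ky) * (x' s0 * (y t - y s0) - y' s0 * (x t - x s0)) = 0 := by
        linear_combination y' s0 * h - (y t - y s0) * hzero
      exact (mul_eq_zero.1 this).resolve_right hA
    have := hlam s0
    rw [hv1, hv2] at this
    simp at this

theorem t_SMO : S_SMO := by
  intro x y x' y' L Ω K K' f f' hC hF hT hR hKK hf hf' s
  by_contra hcon
  push Not at hcon
  obtain ⟨h1, h2, hRT, _⟩ := hf s
  obtain ⟨h1', h2', hRT', _⟩ := hf' s
  obtain ⟨hP, hB, hne, hpos, k, hk, h0⟩ := hRT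
  obtain ⟨_, hB', hne', hpos', _⟩ := hRT'
  -- `l > 0` at `k`
  have hw : pt x y (f' s) - pt x y s ≠ 0 := sub_ne_zero.2 (Ne.symm hne')
  have hlk : 0 < cr (pt x y (f' s) - pt x y s) (k - pt x y s) := by
    have hki : k ∈ interior K' := hKK hk
    rw [mem_interior_iff_mem_nhds] at hki
    obtain ⟨w, hwdef⟩ : ∃ w, w = pt x y (f' s) - pt x y s := ⟨_, rfl⟩
    rw [← hwdef] at hw ⊢
    -- move a little to the right
    have hcont : Tendsto (fun ε : ℝ => k - (ε : ℂ) * (Complex.I * w)) (𝓝 0) (𝓝 k) := by
      have : Continuous fun ε : ℝ => k - (ε : ℂ) * (Complex.I * w) := by fun_prop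
      have h := this.tendsto 0
      simpa using h
    have hev := hcont.eventually hki
    have hev2 : ∀ᶠ ε : ℝ in 𝓝[>] 0, k - (ε : ℂ) * (Complex.I * w) ∈ K' :=
      hev.filter_mono nhdsWithin_le_nhds
    obtain ⟨ε, hε, hε0⟩ := (hev2.and self_mem_nhdsWithin).exists
    have hε0' : 0 < ε := hε0
    have h3 := hpos' _ hε
    rw [← hwdef] at h3
    have h4 : cr w (k - (ε : ℂ) * (Complex.I * w) - pt x y s) =
        cr w (k - pt x y s) - ε * (w.re ^ 2 + w.im ^ 2) := by
      rw [cr_eq, cr_eq]
      simp
      ring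
    rw [h4] at h3
    have h5 : 0 < w.re ^ 2 + w.im ^ 2 := by
      have := Complex.normSq_pos.2 hw
      rw [Complex.normSq_apply] at this
      nlinarith
    have := mul_pos hε0' h5
    linarith
  -- the touching point
  have hw2 : pt x y (f s) - pt x y s ≠ 0 := sub_ne_zero.2 (Ne.symm hne)
  obtain ⟨r, hr⟩ := exists_smul hw2 h0
  have hlB : cr (pt x y (f' s) - pt x y s) (pt x y (f s) - pt x y s) ≤ 0 := by
    rcases eq_or_lt_of_le hcon with h | h
    · rw [← h, cr_eq]; linarith [mul_comm (pt x y (f s) - pt x y s).re (pt x y (f s) - pt x y s).im]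
    · have := hF.orient s (f s) (f' s) h1 h h2'
      rw [cr_eq]
      simp only [pt, Complex.sub_re, Complex.sub_im]
      linarith
  rcases le_or_gt 0 r with hr0 | hr0
  · rw [hr, cr_smul_right] at hlk
    have := mul_nonpos_of_nonneg_of_nonpos hr0 hlB
    linarith
  · -- `k` is outside
    have e1 : k.re = x s + r * (x (f s) - x s) := by
      have := congrArg Complex.re hr
      simp [pt] at this
      linarith
    have e2 : k.im = y s + r * (y (f s) - y s) := by
      have := congrArg Complex.im hr
      simp [pt] at this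
      linarith
    have hkout : 0 < x' s * (y s - k.im) - y' s * (x s - k.re) := by
      have h3 := hC.conv s (f s) h1 h2
      rw [e1, e2]
      have : x' s * (y s - (y s + r * (y (f s) - y s))) - y' s * (x s - (x s + r * (x (f s) - x s))) =
        -r * (x' s * (y (f s) - y s) - y' s * (x (f s) - x s)) := by ring
      rw [this]
      exact mul_pos (by linarith) h3
    obtain ⟨s0, hs0⟩ := outside hC hkout
    obtain ⟨g1, g2, gRT, _⟩ := hf s0
    obtain ⟨_, _, _, gpos, _⟩ := gRT
    have h4 := gpos k hk
    have h5 := hs0 (f s0) g1 g2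
    rw [cr_eq] at h4
    simp only [pt, Complex.sub_re, Complex.sub_im] at h4
    linarith

end Pool.Agent.W563.BL
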